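import Pool.Agent.MP_542436_nt.H5.Defs

/-! Elimination of a variable and the statements `SepStmt`, `CopStmt`, `ContStmt`. -/

set_option autoImplicit false

namespace Pool.Agent.MP_542436_nt.H50

open Polynomial Pool.Agent.MP_542436_nt.H5

lemma elim_poly {R : Type} [CommRing R] [IsDomain R] [UniqueFactorizationMonoid R] {P Q : R[X]}
    (hP : Irreducible P) (hQ : ¬ P ∣ Q) : ∃ (U V : R[X]) (d : R), d ≠ 0 ∧ U * P + V * Q = C d := by
  by_cases h0 : P.natDegree = 0
  · refine ⟨1, 0, P.coeff 0, fun h => hP.ne_zero ?_, ?_⟩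
    · rw [eq_C_of_natDegree_eq_zero h0, h, map_zero]
    · rw [one_mul, zero_mul, add_zero]; exact eq_C_of_natDegree_eq_zero h0
  letI : NormalizedGCDMonoid R := Nonempty.some inferInstance
  have h1 : P.IsPrimitive := hP.isPrimitive h0
  have h2 := (h1.irreducible_iff_irreducible_map_fraction_map (K := FractionRing R)).1 hP
  have h3 : ¬ P.map (algebraMap R (FractionRing R)) ∣ Q.map (algebraMap R (FractionRing R)) :=
    fun h => hQ (h1.dvd_of_fraction_map_dvd_fraction_map h)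
  obtain ⟨a, b, hab⟩ := (h2.coprime_iff_not_dvd).2 h3
  obtain ⟨c, hc, ea⟩ := IsLocalization.integerNormalization_spec (nonZeroDivisors R) a
  obtain ⟨d, hd, eb⟩ := IsLocalization.integerNormalization_spec (nonZeroDivisors R) b
  refine ⟨C d * IsLocalization.integerNormalization (nonZeroDivisors R) a,
    C c * IsLocalization.integerNormalization (nonZeroDivisors R) b, c * d,
    mul_ne_zero (nonZeroDivisors.ne_zero hc) (nonZeroDivisors.ne_zero hd), ?_⟩
  apply map_injective (algebraMap R (FractionRing R)) (IsFractionRing.injective R _)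
  simp only [Polynomial.map_add, Polynomial.map_mul, ea, eb, map_C, map_mul, Algebra.smul_def,
    Polynomial.algebraMap_apply]
  linear_combination (C (algebraMap R (FractionRing R) c) * C (algebraMap R (FractionRing R) d)) * hab

/-- `Δ` does not depend on the variable `v` -/
def FreeOf (v : Fin 2 ⊕ Fin 2) (Δ : MP) : Prop :=
  ∀ (A : Type) [CommRing A] [Algebra ℤ A] (x y : Fin 2 ⊕ Fin 2 → A), (∀ i, i ≠ v → x i = y i) →
    MvPolynomial.aeval x Δ = MvPolynomial.aeval y Δ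

lemma elim (v : Fin 2 ⊕ Fin 2) {P Q : MP} (hP : Irreducible P) (hQ : ¬ P ∣ Q) :
    ∃ U V Δ : MP, Δ ≠ 0 ∧ FreeOf v Δ ∧ U * P + V * Q = Δ := by
  let e := (MvPolynomial.renameEquiv ℤ (Equiv.optionSubtypeNe v).symm).trans
    (MvPolynomial.optionEquivLeft ℤ {i // i ≠ v})
  have he : ∀ d : MvPolynomial {i // i ≠ v} ℤ, e (MvPolynomial.rename Subtype.val d) = C d := by
    intro d
    induction d using MvPolynomial.induction_on with
    | C a => simp [e, MvPolynomial.optionEquivLeft_C]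
    | add p q hp hq => rw [map_add, map_add, hp, hq, map_add]
    | mul_X p i hp =>
      rw [map_mul, map_mul, hp, map_mul]
      congr 1
      simp [e, Equiv.optionSubtypeNe_symm_of_ne i.2, MvPolynomial.optionEquivLeft_X_some]
  obtain ⟨U, V, d, hd, h⟩ := elim_poly ((MulEquiv.irreducible_iff e).2 hP)
    (fun h => hQ ((map_dvd_iff e).1 h))
  refine ⟨e.symm U, e.symm V, MvPolynomial.rename Subtype.val d, fun h0 => hd ?_, ?_, ?_⟩
  · have := he d
    rw [h0, map_zero] at this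
    exact C_eq_zero.1 this.symm
  · intro A _ _ x y hxy
    rw [MvPolynomial.aeval_rename, MvPolynomial.aeval_rename]
    congr 2
    funext i
    exact hxy i.1 i.2
  · apply e.injective
    rw [map_add, map_mul, map_mul, he, AlgEquiv.apply_symm_apply, AlgEquiv.apply_symm_apply, h]

lemma hom_aeval {A B : Type} [CommRing A] [CommRing B] [Algebra ℤ A] [Algebra ℤ B] (f : A →+* B)
    (x : Fin 2 ⊕ Fin 2 → A) (F : MP) : f (MvPolynomial.aeval x F) = MvPolynomial.aeval (fun i => f (x i)) F := by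
  induction F using MvPolynomial.induction_on with
  | C a => rw [MvPolynomial.aeval_C, MvPolynomial.aeval_C, eq_intCast, eq_intCast, map_intCast]
  | add p q hp hq => rw [map_add, map_add, map_add, hp, hq]
  | mul_X p i hp => simp [hp]

lemma cast_eval {B : Type} [CommRing B] [Algebra ℤ B] (x : Fin 2 ⊕ Fin 2 → ℤ) (F : MP) :
    ((MvPolynomial.eval x F : ℤ) : B) = MvPolynomial.aeval (fun i => (x i : B)) F :=
  hom_aeval (Int.castRingHom B) x F

lemma scale {F : MP} {q r : ℕ} (h : BiHom F q r) {A : Type} [CommRing A] [Algebra ℤ A] (l m : A)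
    (a b : Fin 2 → A) : MvPolynomial.aeval (Sum.elim (fun k => l * a k) (fun k => m * b k)) F =
      l ^ q * m ^ r * MvPolynomial.aeval (Sum.elim a b) F := by
  simp only [MvPolynomial.aeval_def, MvPolynomial.eval₂_eq', Finset.mul_sum]
  refine Finset.sum_congr rfl fun d hd => ?_
  have h1 := h (MvPolynomial.mem_support_iff.1 hd)
  rw [Finsupp.weight_apply, Finsupp.sum_fintype _ _ (by simp)] at h1
  simp only [Fintype.sum_sum_type, Fin.sum_univ_two, wt, Sum.elim_inl, Sum.elim_inr,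
    Prod.smul_mk, smul_eq_mul, mul_one, mul_zero, Prod.mk_add_mk, add_zero, zero_add,
    Prod.mk.injEq] at h1
  simp only [Fintype.prod_sum_type, Fin.prod_univ_two, Sum.elim_inl, Sum.elim_inr, ← h1.1, ← h1.2]
  ring

lemma exists_eval_ne {Δ : MP} (h : Δ ≠ 0) : ∃ x : Fin 2 ⊕ Fin 2 → ℤ, MvPolynomial.eval x Δ ≠ 0 := by
  by_contra hc
  push Not at hc
  exact h (MvPolynomial.funext fun x => by rw [hc, map_zero])

lemma fin_prim {φ : ℚ[X]} (h : φ ≠ 0) : ∃ Z : Finset (ℤ × ℤ), ∀ s : ℤ × ℤ, Int.gcd s.1 s.2 = 1 →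
    s ∉ Z → s.2 ≠ 0 ∧ φ.eval ((s.1 : ℚ) / s.2) ≠ 0 := by
  classical
  refine ⟨{(1, 0), (-1, 0)} ∪ φ.roots.toFinset.biUnion
    (fun ρ => {(ρ.num, (ρ.den : ℤ)), (-ρ.num, -(ρ.den : ℤ))}), ?_⟩
  rintro ⟨a, b⟩ hs hZ
  simp only [Finset.mem_union, Finset.mem_insert, Finset.mem_singleton, Finset.mem_biUnion,
    Multiset.mem_toFinset, mem_roots h, IsRoot.def, Prod.mk.injEq, not_or, not_exists,
    not_and] at hZ hs ⊢
  have hb : b ≠ 0 := by
    rintro rfl
    rw [Int.gcd_zero_right] at hs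
    omega
  refine ⟨hb, fun h0 => ?_⟩
  obtain ⟨h1, h2⟩ := hZ.2 _ h0
  rcases lt_or_gt_of_ne hb with hb' | hb'
  · have c : Nat.Coprime (-a).natAbs (-b).natAbs := by
      rw [Int.natAbs_neg, Int.natAbs_neg]; exact hs
    have e1 := Rat.num_div_eq_of_coprime (neg_pos.2 hb') c
    have e2 := Rat.den_div_eq_of_coprime (neg_pos.2 hb') c
    push_cast at e1 e2
    rw [neg_div_neg_eq] at e1 e2
    exact h2 (by omega) (by omega)
  · exact h1 (Rat.num_div_eq_of_coprime hb' hs).symm (Rat.den_div_eq_of_coprime hb' hs).symm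

lemma map_gt (F : MP) (s : ℤ × ℤ) : (gt F s).map (Int.castRingHom ℚ) =
    MvPolynomial.aeval (Sum.elim ![C (s.1 : ℚ), C (s.2 : ℚ)] ![(X : ℚ[X]), 1]) F := by
  rw [gt, ← coe_mapRingHom, hom_aeval]
  congr 2
  funext i
  rcases i with i | i <;> fin_cases i <;> simp

lemma gen {F G : MP} {q r q' r' : ℕ} (hF : BiHom F q r) (hG : BiHom G q' r')
    (hi : Irreducible F) (hd : ¬ F ∣ G) :
    ∃ Z : Finset (ℤ × ℤ), ∀ s : ℤ × ℤ, Int.gcd s.1 s.2 = 1 → s ∉ Z →
      IsCoprime ((gt F s).map (Int.castRingHom ℚ)) ((gt G s).map (Int.castRingHom ℚ)) := by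
  obtain ⟨U, V, Δ, h0, hf, h⟩ := elim (.inr 0) hi hd
  obtain ⟨x, hx⟩ := exists_eval_ne (mul_ne_zero (mul_ne_zero h0
    (MvPolynomial.X_ne_zero (.inl 1))) (MvPolynomial.X_ne_zero (.inr 1)))
  simp only [map_mul, MvPolynomial.eval_X, mul_ne_zero_iff] at hx
  obtain ⟨⟨h1, h2⟩, h3⟩ := hx
  have h2' : (x (.inl 1) : ℚ) ≠ 0 := by exact_mod_cast h2
  let φ : ℚ[X] := MvPolynomial.aeval (Sum.elim ![C (x (.inl 1) : ℚ) * X, C (x (.inl 1) : ℚ)]
    ![0, C (x (.inr 1) : ℚ)]) Δ
  have hφ : ∀ σ : ℚ, φ.eval σ = MvPolynomial.aeval (Sum.elim ![(x (.inl 1) : ℚ) * σ, x (.inl 1)]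
      ![0, (x (.inr 1) : ℚ)]) Δ := by
    intro σ
    rw [← coe_evalRingHom, hom_aeval]
    congr 2
    funext i
    rcases i with i | i <;> fin_cases i <;> simp
  have hφ0 : φ ≠ 0 := by
    intro e
    have := hφ ((x (.inl 0) : ℚ) / x (.inl 1))
    rw [e, eval_zero, hf ℚ _ (fun i => (x i : ℚ)), ← cast_eval] at this
    · exact h1 (by exact_mod_cast this.symm)
    · intro i hi
      rcases i with i | i <;> fin_cases i <;> simp at hi ⊢
      field_simp
  obtain ⟨Z, hZ⟩ := fin_prim hφ0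
  refine ⟨Z, fun s hs hz => ?_⟩
  obtain ⟨a1, a2⟩ := hZ s hs hz
  have a1' : (s.2 : ℚ) ≠ 0 := by exact_mod_cast a1
  have key := congrArg (MvPolynomial.aeval (Sum.elim
    (fun k => C ((x (.inl 1) : ℚ) / s.2) * ![C (s.1 : ℚ), C (s.2 : ℚ)] k)
    (fun k => C (x (.inr 1) : ℚ) * ![(X : ℚ[X]), 1] k))) h
  rw [map_add, map_mul, map_mul, scale hF, scale hG, ← map_gt, ← map_gt,
    hf ℚ[X] _ (fun i => C (Sum.elim ![(x (.inl 1) : ℚ) * ((s.1 : ℚ) / s.2), x (.inl 1)]
      ![0, (x (.inr 1) : ℚ)] i)), ← hom_aeval (C : ℚ →+* ℚ[X]), ← hφ] at key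
  · have fin : ∀ (u w a b f g : ℚ[X]) (c : ℚ), c ≠ 0 → u * (a * f) + w * (b * g) = C c →
        IsCoprime f g := fun u w a b f g c hc e => ⟨C c⁻¹ * (u * a), C c⁻¹ * (w * b), by
      rw [mul_assoc, mul_assoc (C _), ← mul_add, mul_assoc, mul_assoc, e, ← C_mul,
        inv_mul_cancel₀ hc, C_1]⟩
    exact fin _ _ _ _ _ _ _ a2 key
  · intro i hi
    rcases i with i | i <;> fin_cases i
    · show C _ * C _ = C (_ * _)
      rw [← C_mul]; congr 1; ring
    · show C _ * C _ = C _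
      rw [← C_mul, div_mul_cancel₀ _ a1']; rfl
    · exact absurd rfl hi
    · show C _ * 1 = C _
      rw [mul_one]; rfl

theorem cop : BasicStmt → CopStmt := fun _ _ _ _ _ _ _ hF hG hA h1 h2 =>
  gen h1 h2 hF fun h => hA (hF.associated_of_dvd hG h)

lemma derivative_gt (F : MP) (s : ℤ × ℤ) :
    derivative (gt F s) = gt (MvPolynomial.pderiv (.inr 0) F) s := by
  unfold gt
  induction F using MvPolynomial.induction_on with
  | C a => simp
  | add p q hp hq => simp only [map_add, hp, hq]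
  | mul_X p i hp =>
    rw [map_mul, derivative_mul, hp, Derivation.leibniz]
    rcases i with i | i <;> fin_cases i <;> simp [MvPolynomial.pderiv_X] <;> ring

theorem sepS : BasicStmt → SepStmt := by
  intro hB F q r hi hF hr h0
  obtain ⟨b1, -, b3, -⟩ := hB F q r hF
  have hG : BiHom (MvPolynomial.pderiv (.inr 0) F) q (r - 1) :=
    MvPolynomial.IsWeightedHomogeneous.pderiv hF (by simp [wt]; omega)
  have hd : ¬ F ∣ MvPolynomial.pderiv (.inr 0) F := by
    intro h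
    have h1 : gt F (1, 0) ∣ derivative (gt F (1, 0)) := by
      rw [derivative_gt]
      obtain ⟨c, hc⟩ := h
      rw [hc]
      unfold H5.gt
      rw [map_mul]
      exact dvd_mul_right _ _
    have h2 : r ≤ (gt F (1, 0)).natDegree := le_natDegree_of_ne_zero (by rw [b3]; exact h0)
    have h3 : derivative (gt F (1, 0)) ≠ 0 := fun e => by
      have := derivative_eq_zero.1 e
      omega
    have h4 := natDegree_le_of_dvd h1 h3
    have h5 := natDegree_derivative_lt (p := gt F (1, 0)) (by omega)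
    omega
  obtain ⟨Z, hZ⟩ := gen hF hG hi hd
  let ψ : ℚ[X] := MvPolynomial.aeval (Sum.elim ![1, X] ![1, 0]) F
  have hψ : ∀ σ : ℚ, ψ.eval σ = MvPolynomial.aeval (Sum.elim ![1, σ] ![1, 0]) F := by
    intro σ
    rw [← coe_evalRingHom, hom_aeval]
    congr 2
    funext i
    rcases i with i | i <;> fin_cases i <;> simp
  have hev : ∀ s : ℤ × ℤ, ((ev F s (1, 0) : ℤ) : ℚ) =
      MvPolynomial.aeval (Sum.elim ![(s.1 : ℚ), s.2] ![1, 0]) F := by
    intro s
    rw [ev, cast_eval]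
    congr 2
    funext i
    rcases i with i | i <;> fin_cases i <;> simp
  have hψ0 : ψ ≠ 0 := by
    intro e
    have h1 := hψ 0
    have h2 := hev (1, 0)
    simp only [Int.cast_one, Int.cast_zero] at h2
    rw [e, eval_zero, ← h2] at h1
    exact h0 (by exact_mod_cast h1.symm)
  obtain ⟨Z', hZ'⟩ := fin_prim hψ0
  refine ⟨Z ∪ Z'.image Prod.swap, fun s hs hz => ⟨?_, ?_⟩⟩
  · obtain ⟨a1, a2⟩ := hZ' s.swap (by simpa [Int.gcd_comm] using hs) fun h =>
      hz (Finset.mem_union_right _ (Finset.mem_image.2 ⟨_, h, s.swap_swap⟩))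
    simp only [Prod.snd_swap, Prod.fst_swap] at a1 a2
    have a1' : (s.1 : ℚ) ≠ 0 := by exact_mod_cast a1
    rw [b3]
    intro e
    have h1 := scale hF (s.1 : ℚ) 1 ![1, (s.2 : ℚ) / s.1] ![1, 0]
    have h2 : (Sum.elim (fun k => (s.1 : ℚ) * ![1, (s.2 : ℚ) / s.1] k) fun k => 1 * ![1, 0] k) =
        Sum.elim ![(s.1 : ℚ), s.2] ![1, 0] := by
      funext i
      rcases i with i | i <;> fin_cases i <;> simp
      field_simp
    rw [h2, ← hev, ← hψ, e] at h1
    simp [a1, a2] at h1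
  · rw [separable_def, derivative_map, derivative_gt]
    exact hZ s hs fun h => hz (Finset.mem_union_left _ h)

lemma split_cop {a b : ℤ} (h : IsCoprime a b) {κ : ℤ} (hκ : κ ≠ 0) :
    ∃ k l, κ = k * l ∧ IsCoprime k a ∧ IsCoprime l b := by
  induction κ using UniqueFactorizationMonoid.induction_on_prime with
  | h₁ => exact absurd rfl hκ
  | h₂ u hu =>
    obtain ⟨v, hv⟩ := hu.exists_left_inv
    exact ⟨u, 1, by ring, ⟨v, 0, by simpa using hv⟩, isCoprime_one_left⟩
  | h₃ κ p h0 hp ih =>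
    obtain ⟨k, l, rfl, h1, h2⟩ := ih h0
    by_cases ha : p ∣ a
    · have hb : ¬ p ∣ b := fun hb => hp.not_isUnit (h.isUnit_of_dvd' ha hb)
      exact ⟨k, p * l, by ring, h1, (hp.coprime_iff_not_dvd.2 hb).mul_left h2⟩
    · exact ⟨p * k, l, by ring, (hp.coprime_iff_not_dvd.2 ha).mul_left h1, h2⟩

lemma cont_aux {F : MP} {q r : ℕ} (hi : Irreducible F) (hF : BiHom F q r) (hr : 1 ≤ r)
    (h0 : ev F (1, 0) (1, 0) ≠ 0) (i j : Fin 2) (hij : ∀ k, k ≠ i → k = j) :
    ∃ R : ℤ, R ≠ 0 ∧ ∀ (s : ℤ × ℤ) (κ : ℤ), (∀ t, κ ∣ ev F s t) → IsCoprime κ (![s.1, s.2] j) →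
      κ ∣ R := by
  let Q : MP := MvPolynomial.aeval
    (Sum.elim (fun k => MvPolynomial.X (.inl k)) ![1, 0]) F
  have hQ : ∀ (A : Type) [CommRing A] [Algebra ℤ A] (a b : Fin 2 → A),
      MvPolynomial.aeval (Sum.elim a b) Q = MvPolynomial.aeval (Sum.elim a ![1, 0]) F := by
    intro A _ _ a b
    refine (hom_aeval (MvPolynomial.aeval (Sum.elim a b) : MP →ₐ[ℤ] A).toRingHom _ F).trans ?_
    congr 2
    funext k
    rcases k with k | k <;> fin_cases k <;> simp
  have hd : ¬ F ∣ Q := by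
    intro h
    have h1 := map_dvd (MvPolynomial.aeval (Sum.elim (fun k => (1 : ℤ) * ![1, 0] k)
      (fun k => (0 : ℤ) * ![1, 0] k))) h
    rw [scale hF, hQ, zero_pow (by omega), mul_zero, zero_mul, zero_dvd_iff] at h1
    simp only [one_mul] at h1
    exact h0 h1
  obtain ⟨U, V, Δ, h1, hf, h⟩ := elim (.inl i) hi hd
  obtain ⟨x, hx⟩ := exists_eval_ne h1
  refine ⟨_, hx, fun s κ hκ ⟨a, w, hw⟩ => ?_⟩
  have hz : ∀ n : ℤ, (n : ZMod κ.natAbs) = 0 ↔ κ ∣ n := fun n => by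
    rw [ZMod.intCast_zmod_eq_zero_iff_dvd, Int.natAbs_dvd]
  have hw' : (w : ZMod κ.natAbs) * ((![s.1, s.2] j : ℤ) : ZMod κ.natAbs) = 1 := by
    have := congrArg (Int.cast : ℤ → ZMod κ.natAbs) hw
    push_cast at this
    rwa [(hz κ).2 dvd_rfl, mul_zero, zero_add] at this
  have hv : ∀ t : Fin 2 → ℤ, MvPolynomial.aeval (Sum.elim
      (fun k => ((x (.inl j) : ZMod κ.natAbs) * w) * ((![s.1, s.2] k : ℤ) : ZMod κ.natAbs))
      (fun k => (t k : ZMod κ.natAbs))) F = 0 := by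
    intro t
    have e := scale hF ((x (.inl j) : ZMod κ.natAbs) * w) 1
      (fun k => ((![s.1, s.2] k : ℤ) : ZMod κ.natAbs)) (fun k => (t k : ZMod κ.natAbs))
    simp only [one_mul] at e
    have e2 := (hz _).2 (hκ (t 0, t 1))
    rw [ev, cast_eval] at e2
    rw [e, mul_eq_zero_of_right]
    rw [← e2]
    congr 2
    funext k
    rcases k with k | k <;> fin_cases k <;> simp
  have key := congrArg (MvPolynomial.aeval (Sum.elim
    (fun k => ((x (.inl j) : ZMod κ.natAbs) * w) * ((![s.1, s.2] k : ℤ) : ZMod κ.natAbs))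
    (fun k => (x (.inr k) : ZMod κ.natAbs)))) h
  have e3 : (![1, 0] : Fin 2 → ZMod κ.natAbs) = fun k => ((![1, 0] k : ℤ) : ZMod κ.natAbs) := by
    funext k; fin_cases k <;> simp
  rw [map_add, map_mul, map_mul, hQ, e3, hv, hv, mul_zero, mul_zero,
    add_zero, hf _ _ (fun i => (x i : ZMod κ.natAbs)), ← cast_eval] at key
  · exact (hz _).1 key.symm
  · intro k hk
    rcases k with k | k
    · obtain rfl := hij k fun e => hk (e ▸ rfl)
      simp only [Sum.elim_inl]
      rw [mul_assoc, hw', mul_one]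
    · rfl

theorem cont : BasicStmt → ContStmt := by
  intro hB F q r hi hF hr h0
  obtain ⟨-, b2, -, -⟩ := hB F q r hF
  obtain ⟨R0, a0, c0⟩ := cont_aux hi hF hr h0 1 0 (by decide)
  obtain ⟨R1, a1, c1⟩ := cont_aux hi hF hr h0 0 1 (by decide)
  have hR : R0 * R1 ≠ 0 := mul_ne_zero a0 a1
  have key : ∀ s : ℤ × ℤ, Int.gcd s.1 s.2 = 1 → ∀ κ : ℤ, κ ≠ 0 → (∀ k, κ ∣ (gt F s).coeff k) →
      κ ∣ R0 * R1 := by
    intro s hs κ hκ h
    have h1 : ∀ t, κ ∣ ev F s t := fun t => by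
      rw [← b2, hv]
      exact Finset.dvd_sum fun k _ => ((h k).mul_right _).mul_right _
    obtain ⟨k, l, rfl, e1, e2⟩ := split_cop (Int.isCoprime_iff_gcd_eq_one.2 hs) hκ
    exact mul_dvd_mul (c0 s k (fun t => (dvd_mul_right k l).trans (h1 t)) e1)
      (c1 s l (fun t => (dvd_mul_left l k).trans (h1 t)) e2)
  refine ⟨(R0 * R1).natAbs, Int.natAbs_pos.2 hR, fun s hs κ h => ?_⟩
  rw [Int.dvd_natAbs]
  by_cases hκ : κ = 0
  · have := key s hs (|R0 * R1| + 1) (by positivity) fun k => by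
      have e : (H5.gt F s).coeff k = 0 := zero_dvd_iff.1 (hκ ▸ h k)
      rw [e]; exact dvd_zero _
    have := Int.le_of_dvd (abs_pos.2 hR) ((dvd_abs _ _).2 this)
    omega
  · exact key s hs κ hκ h

end Pool.Agent.MP_542436_nt.H50
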