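import Pool.Agent.MP_542436_nt.Abc.Defs
import Pool.Agent.MP_542436_nt.H87.S2

/-!
Roots of binomial congruences, the canonical factorisation, integers with a small radical.
-/

set_option autoImplicit false

namespace Pool.Agent.MP_542436_nt.H50

open Finset Pool.Agent.MP_542436_nt.Abc

/-- Roots of unity in a finite commutative group, counted with a cyclic subgroup. -/
theorem card_le_index {G : Type} [CommGroup G] [Finite G] (g : G) {p : ℕ} (hp : 0 < p) :
    Nat.card {x : G // x ^ p = 1} ≤ p * (Subgroup.zpowers g).index := by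
  classical
  set H := Subgroup.zpowers g
  set K := (powMonoidHom p : G →* G).ker
  have e : Nat.card {x : G // x ^ p = 1} = Nat.card K := rfl
  have h1 : (H.subgroupOf K).index ≤ H.index :=
    Nat.le_of_dvd (Nat.pos_of_ne_zero Subgroup.index_ne_zero_of_finite)
      (Subgroup.relIndex_dvd_index_of_normal H K)
  have h2 : Nat.card (H.subgroupOf K) ≤ p := by
    have := Fintype.ofFinite H
    refine le_trans ?_ (IsCyclic.card_pow_eq_one_le (α := H) hp)
    rw [← Nat.card_eq_finsetCard]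
    refine Nat.card_le_card_of_injective
      (fun x => ⟨⟨x.1.1, x.2⟩, mem_filter.2 ⟨mem_univ _, Subtype.ext x.1.2⟩⟩) fun x y h => ?_
    exact Subtype.ext (Subtype.ext (congrArg (fun z => z.1.1) h))
  rw [e, ← Subgroup.card_mul_index (H.subgroupOf K)]
  exact Nat.mul_le_mul h2 h1

theorem card_prime_pow {q a p : ℕ} (hq : q.Prime) (ha : 0 < a) (hp : 0 < p) (h6 : p ≤ 6) :
    Nat.card {x : (ZMod (q ^ a))ˣ // x ^ p = 1} ≤ 16 := by
  have : NeZero (q ^ a) := ⟨pow_ne_zero _ hq.ne_zero⟩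
  have key : ∃ g : (ZMod (q ^ a))ˣ, (Subgroup.zpowers g).index ≤ 2 := by
    by_cases h2 : q = 2
    · subst h2
      rcases Nat.lt_or_ge a 2 with h | h
      · obtain rfl : a = 1 := by omega
        refine ⟨1, (Nat.le_of_dvd Nat.card_pos (Subgroup.index_dvd_card _)).trans ?_⟩
        rw [Nat.card_eq_fintype_card, ZMod.card_units_eq_totient]
        decide
      · obtain ⟨n, rfl⟩ : ∃ n, a = n + 2 := ⟨a - 2, by omega⟩
        have hc : Nat.Coprime 5 (2 ^ (n + 2)) := Nat.Coprime.pow_right _ (by norm_num)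
        refine ⟨ZMod.unitOfCoprime 5 hc, le_of_eq ?_⟩
        have h1 := Subgroup.card_mul_index (Subgroup.zpowers (ZMod.unitOfCoprime 5 hc))
        have h3 : orderOf (ZMod.unitOfCoprime 5 hc) = 2 ^ n := by
          rw [← orderOf_units, ZMod.coe_unitOfCoprime]
          exact_mod_cast ZMod.orderOf_five n
        rw [Nat.card_zpowers, h3, Nat.card_eq_fintype_card, ZMod.card_units_eq_totient,
          Nat.totient_prime_pow_succ Nat.prime_two] at h1
        exact Nat.eq_of_mul_eq_mul_left (show 0 < 2 ^ n by positivity)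
          (h1.trans (by rw [pow_succ 2 n]; simp))
    · obtain ⟨g, hg⟩ := (ZMod.isCyclic_units_of_prime_pow q hq h2 a).exists_generator
      refine ⟨g, ?_⟩
      rw [(Subgroup.eq_top_iff' _).2 hg, Subgroup.index_top]
      norm_num
  obtain ⟨g, hg⟩ := key
  refine (card_le_index g hp).trans ?_
  calc p * (Subgroup.zpowers g).index ≤ 6 * 2 := Nat.mul_le_mul h6 hg
    _ ≤ 16 := by norm_num

theorem card_roots {p : ℕ} (hp : 0 < p) (h6 : p ≤ 6) (w : ℕ) (hw : 0 < w) :
    Nat.card {x : (ZMod w)ˣ // x ^ p = 1} ≤ w.divisors.card ^ 4 := by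
  induction w using Nat.recOnPosPrimePosCoprime with
  | prime_pow q a hq ha =>
    refine (card_prime_pow hq ha hp h6).trans ?_
    rw [Nat.divisors_prime_pow hq, card_map, card_range]
    calc 16 = 2 ^ 4 := by norm_num
      _ ≤ (a + 1) ^ 4 := Nat.pow_le_pow_left (by omega) 4
  | zero => exact absurd hw (lt_irrefl 0)
  | one =>
    rw [Nat.divisors_one, card_singleton, one_pow]
    exact Finite.card_le_one_iff_subsingleton.2 inferInstance
  | coprime m n hm hn hmn im ih =>
    have : NeZero m := ⟨by omega⟩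
    have : NeZero n := ⟨by omega⟩
    rw [hmn.card_divisors_mul, mul_pow]
    refine le_trans ?_ (Nat.mul_le_mul (im (by omega)) (ih (by omega)))
    rw [← Nat.card_prod]
    let f := (Units.mapEquiv (ZMod.chineseRemainder hmn).toMulEquiv).trans MulEquiv.prodUnits
    have hf : ∀ x : {x : (ZMod (m * n))ˣ // x ^ p = 1}, f x.1 ^ p = 1 := fun x => by
      rw [← map_pow, x.2, map_one]
    refine Nat.card_le_card_of_injective
      (fun x => (⟨(f x.1).1, congrArg Prod.fst (hf x)⟩, ⟨(f x.1).2, congrArg Prod.snd (hf x)⟩))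
      fun x y h => Subtype.ext (f.injective (Prod.ext ?_ ?_))
    · exact congrArg (fun z => z.1.1) h
    · exact congrArg (fun z => z.2.1) h

theorem root : RootStmt := by
  classical
  intro w p a b hw hp h6 ha
  have : NeZero w := ⟨hw.ne'⟩
  by_cases hs : ∃ x y : ℤ, IsCoprime x (w : ℤ) ∧ IsCoprime y (w : ℤ) ∧
      (w : ℤ) ∣ a * x ^ p - b * y ^ p
  swap
  · exact ⟨∅, by simp, fun x y hx hy h => absurd ⟨x, y, hx, hy, h⟩ hs⟩
  obtain ⟨x₀, y₀, hx₀, hy₀, h₀⟩ := hs
  have un : ∀ {x : ℤ}, IsCoprime x (w : ℤ) → ∃ u : (ZMod w)ˣ, (u : ZMod w) = x := fun {x} hx => by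
    have := hx.map (Int.castRingHom (ZMod w))
    simp only [eq_intCast, Int.cast_natCast, ZMod.natCast_self, isCoprime_zero_right] at this
    exact this
  have eq : ∀ {x y : ℤ}, (w : ℤ) ∣ a * x ^ p - b * y ^ p →
      (a : ZMod w) * (x : ZMod w) ^ p = (b : ZMod w) * (y : ZMod w) ^ p := fun {x y} h => by
    have := (ZMod.intCast_zmod_eq_zero_iff_dvd _ w).2 h
    push_cast at this
    exact sub_eq_zero.1 this
  obtain ⟨A, hA⟩ := un ha
  obtain ⟨X₀, hX₀⟩ := un hx₀
  obtain ⟨Y₀, hY₀⟩ := un hy₀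
  have := Fintype.ofFinite {x : (ZMod w)ˣ // x ^ p = 1}
  refine ⟨(univ : Finset {x : (ZMod w)ˣ // x ^ p = 1}).image
    fun ζ => (((ζ.1 * X₀ * Y₀⁻¹ : (ZMod w)ˣ) : ZMod w).val : ℤ), ?_, fun x y hx hy h => ?_⟩
  · refine card_image_le.trans ?_
    rw [card_univ, ← Nat.card_eq_fintype_card]
    exact card_roots hp h6 w hw
  · obtain ⟨X, hX⟩ := un hx
    obtain ⟨Y, hY⟩ := un hy
    have e1 := eq h
    have e2 := eq h₀
    rw [← hA, ← hX, ← hY] at e1
    rw [← hA, ← hX₀, ← hY₀] at e2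
    have e3 : A * (X * Y₀) ^ p = A * (X₀ * Y) ^ p := by
      apply Units.ext
      push_cast
      rw [mul_pow, mul_pow]
      linear_combination (Y₀ : ZMod w) ^ p * e1 - (Y : ZMod w) ^ p * e2
    have e4 : (X * Y₀ * (X₀ * Y)⁻¹) ^ p = 1 := by
      rw [mul_pow, mul_left_cancel e3, inv_pow, mul_inv_cancel]
    refine ⟨_, mem_image_of_mem _ (mem_univ ⟨_, e4⟩), (ZMod.intCast_zmod_eq_zero_iff_dvd _ w).1 ?_⟩
    have e5 : X * Y₀ * (X₀ * Y)⁻¹ * X₀ * Y₀⁻¹ * Y = X := by
      have : X * Y₀ * (X₀ * Y)⁻¹ * X₀ * Y₀⁻¹ * Y =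
          X * ((Y₀ * Y₀⁻¹) * ((X₀ * Y)⁻¹ * (X₀ * Y))) := by ac_rfl
      rw [this, mul_inv_cancel, inv_mul_cancel, mul_one, mul_one]
    rw [Int.cast_sub, Int.cast_mul, Int.cast_natCast, ZMod.natCast_zmod_val, ← hX, ← hY,
      ← Units.val_mul, e5, sub_self]

theorem rd_pos (n : ℕ) : 0 < rd n := prod_pos fun _ hp => (Nat.prime_of_mem_primeFactors hp).pos

theorem rd_one : rd 1 = 1 := by simp [rd]

theorem rd_prime_pow {q a : ℕ} (hq : q.Prime) (ha : 0 < a) : rd (q ^ a) = q := by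
  rw [rd, Nat.primeFactors_prime_pow ha.ne' hq, prod_singleton]

theorem rd_mul_le {m n : ℕ} (hm : 0 < m) (hn : 0 < n) : rd (m * n) ≤ rd m * rd n := by
  unfold rd
  rw [Nat.primeFactors_mul hm.ne' hn.ne', ← prod_union_inter]
  exact Nat.le_mul_of_pos_right _
    (prod_pos fun _ hp => (Nat.prime_of_mem_primeFactors (mem_inter.1 hp).1).pos)

theorem rd_mul {m n : ℕ} (h : m.Coprime n) : rd (m * n) = rd m * rd n := by
  unfold rd
  rw [h.primeFactors_mul, prod_union h.disjoint_primeFactors]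

theorem factor : FactorStmt := by
  intro n hn
  induction n using Nat.recOnPosPrimePosCoprime with
  | prime_pow q a hq ha =>
    have h0 := hq.pos
    rw [rd_prime_pow hq ha]
    rcases Nat.lt_or_ge a 7 with h | h
    · refine ⟨fun i => if i.1 + 1 = a then q else 1, fun i => by dsimp only; split_ifs <;> omega, ?_⟩
      interval_cases a <;> simp [Fin.prod_univ_seven, ex1, rd_one]
    · refine ⟨fun i => if i = 6 then q ^ a else 1, fun i => by dsimp only; split_ifs <;> positivity, ?_⟩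
      simp [Fin.prod_univ_seven, ex1, rd_prime_pow hq ha, Nat.pow_le_pow_right h0 h]
  | zero => exact absurd hn (lt_irrefl 0)
  | one => exact ⟨fun _ => 1, fun _ => one_pos, by simp, by simp [rd_one], by simp [rd_one]⟩
  | coprime m n hm hn' hmn im ih =>
    obtain ⟨u, u0, u1, u2, u3⟩ := im (by omega)
    obtain ⟨v, v0, v1, v2, v3⟩ := ih (by omega)
    have h6 := rd_mul_le (u0 6) (v0 6)
    refine ⟨fun i => u i * v i, fun i => Nat.mul_pos (u0 i) (v0 i), ?_, ?_, ?_⟩
    · rw [← u1, ← v1, ← prod_mul_distrib]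
      exact prod_congr rfl fun i _ => mul_pow _ _ _
    · rw [rd_mul hmn]
      refine le_trans ?_ (Nat.mul_le_mul u2 v2)
      rw [← prod_mul_distrib]
      refine prod_le_prod' fun i _ => ?_
      split_ifs
      · exact h6
      · exact le_rfl
    · refine (Nat.pow_le_pow_left h6 7).trans ?_
      rw [mul_pow]
      exact Nat.mul_le_mul u3 v3

theorem tail : TailStmt := by
  classical
  intro ε hε
  obtain ⟨K, hK, hs⟩ := H87.smooth (ε / 2) (half_pos hε)
  refine ⟨max K 1, le_max_right _ _, fun X t hX => ?_⟩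
  have hX1 : (1 : ℝ) ≤ X := by exact_mod_cast hX
  have hXe : 1 ≤ (X : ℝ) ^ ε := Real.one_le_rpow hX1 hε.le
  rcases Nat.lt_or_ge t X with h | h
  · have sub : (Icc 1 X).filter (fun v => rd v ≤ t) ⊆ (Icc 1 t).biUnion fun D =>
        (Icc 1 X).filter (fun m => ∀ p : ℕ, p.Prime → p ∣ m → p ∣ D) := fun v hv => by
      obtain ⟨h1, h2⟩ := mem_filter.1 hv
      refine mem_biUnion.2 ⟨rd v, mem_Icc.2 ⟨rd_pos v, h2⟩, mem_filter.2 ⟨h1, fun p hp hpv => ?_⟩⟩
      have : v ≠ 0 := by have := (mem_Icc.1 h1).1; omega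
      exact dvd_prod_of_mem _ (Nat.mem_primeFactors.2 ⟨hp, hpv, this⟩)
    have h3 := (Nat.cast_le (α := ℝ)).2 ((card_le_card sub).trans card_biUnion_le)
    refine h3.trans ?_
    rw [Nat.cast_sum]
    refine (sum_le_card_nsmul _ _ (max K 1 * (X : ℝ) ^ ε) fun D hD => ?_).trans (le_of_eq ?_)
    · obtain ⟨d1, d2⟩ := mem_Icc.1 hD
      refine le_trans (by convert hs D X (by omega)) ?_
      refine mul_le_mul (le_max_left _ _) ?_ (by positivity) (by positivity)
      have d3 : (D : ℝ) ≤ X := by exact_mod_cast d2.trans h.le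
      calc ((X : ℝ) * D) ^ (ε / 2) ≤ ((X : ℝ) * X) ^ (ε / 2) := by gcongr
        _ = (X : ℝ) ^ ε := by
          rw [Real.mul_rpow (by positivity) (by positivity), ← Real.rpow_add (by positivity),
            add_halves]
    · simp [mul_comm]
  · have h1 : ((Icc 1 X).filter (fun v => rd v ≤ t)).card ≤ t :=
      (card_filter_le _ _).trans (by simpa using h)
    have h2 : 1 ≤ max K 1 * (X : ℝ) ^ ε := one_le_mul_of_one_le_of_one_le (le_max_right _ _) hXe
    calc _ ≤ (t : ℝ) := by exact_mod_cast h1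
      _ ≤ _ := le_mul_of_one_le_left (Nat.cast_nonneg _) h2

end Pool.Agent.MP_542436_nt.H50
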